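import Mathlib
import Pool.Agent.V11177.RigidTree

namespace Pool.Agent.Results.MP_291af2_co.TrivialAut

open Pool.Agent.V11177.RigidTree Function

/-- number of cells of the tableau in row `i` -/
def row (l : List (ℕ × ℕ)) (i : ℕ) : ℕ := l.countP (fun c => c.1 = i)

/-- the cells in the first `k` rows -/
abbrev K (k : ℕ) : ℕ × ℕ → Prop := fun c => c.1 < k

theorem row_cons (c : ℕ × ℕ) (l : List (ℕ × ℕ)) (i : ℕ) :
    row (c :: l) i = row l i + if c.1 = i then 1 else 0 := by
  unfold row
  rw [List.countP_cons]
  simp

theorem mem_iff (k : ℕ) (l : List (ℕ × ℕ)) (h : IsTab (K k) l) :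
    (∀ c : ℕ × ℕ, c ∈ l ↔ c.1 < k ∧ c.2 < row l c.1) := by
  induction l with
  | nil => intro c; simp [row]
  | cons c0 l ih =>
    obtain ⟨h1, h2, h3, h4⟩ := h
    have ih := ih h1
    have h2' : c0.1 < k := h2
    -- row l c0.1 = c0.2
    have hr : row l c0.1 = c0.2 := by
      apply le_antisymm
      · by_contra hcon
        exact h3 ((ih c0).2 ⟨h2, by omega⟩)
      · rcases Nat.eq_zero_or_pos c0.2 with h0 | h0
        · omega
        · have := (ih (c0.1, c0.2 - 1)).1 (h4 _ (Prod.mk_le_mk.2 ⟨le_rfl, by omega⟩) h2'
            (fun h => by have := congrArg Prod.snd h; simp at this; omega))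
          have := this.2
          simp only at this
          omega
    intro c
    rw [List.mem_cons, row_cons]
    constructor
    · rintro (rfl | h)
      · refine ⟨h2', ?_⟩
        rw [if_pos rfl]; omega
      · have := (ih c).1 h
        exact ⟨this.1, by omega⟩
    · rintro ⟨h5, h6⟩
      by_cases h7 : c0.1 = c.1
      · rw [if_pos h7] at h6
        rw [← h7] at h6
        rcases Nat.lt_or_ge c.2 c0.2 with h8 | h8
        · right
          apply (ih c).2
          rw [← h7]; exact ⟨h2', by omega⟩
        · left
          apply Prod.ext h7.symm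
          omega
      · rw [if_neg h7] at h6
        right
        exact (ih c).2 ⟨h5, by omega⟩

/-- a cell is addable iff it is at the end of an admissible row -/
theorem addable_iff (k : ℕ) (l : List (ℕ × ℕ)) (h : IsTab (K k) l) (c : ℕ × ℕ) :
    IsTab (K k) (c :: l) ↔ c.1 < k ∧ c.2 = row l c.1 ∧ (c.1 = 0 ∨ row l c.1 < row l (c.1 - 1)) := by
  have hm := mem_iff k l h
  constructor
  · rintro ⟨h1, h2, h3, h4⟩
    have h2' : c.1 < k := h2
    have hr : row l c.1 = c.2 := by
      apply le_antisymm
      · by_contra hcon
        exact h3 ((hm c).2 ⟨h2, by omega⟩)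
      · rcases Nat.eq_zero_or_pos c.2 with h0 | h0
        · omega
        · have := (hm (c.1, c.2 - 1)).1 (h4 _ (Prod.mk_le_mk.2 ⟨le_rfl, by omega⟩) h2'
            (fun h => by have := congrArg Prod.snd h; simp at this; omega))
          have := this.2
          simp only at this
          omega
    refine ⟨h2', hr.symm, ?_⟩
    by_cases h0 : c.1 = 0
    · exact Or.inl h0
    · right
      have := (hm (c.1 - 1, c.2)).1 (h4 _ (Prod.mk_le_mk.2 ⟨by omega, le_rfl⟩)
        (show c.1 - 1 < k by omega)
        (fun h => by have := congrArg Prod.fst h; simp at this; omega))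
      have := this.2
      simp only at this
      omega
  · rintro ⟨h1, h2, h3⟩
    refine ⟨h, h1, ?_, ?_⟩
    · intro hc
      have := ((hm c).1 hc).2
      omega
    · intro c' hle _ hne
      -- rows are non-increasing up to c.1
      have hle' : c'.1 ≤ c.1 ∧ c'.2 ≤ c.2 := hle
      have hmono : ∀ i j, i ≤ j → j < k → row l j ≤ row l i := by
        intro i j hij hj
        by_contra hcon
        push Not at hcon
        have hin : (j, row l i) ∈ l := (hm _).2 ⟨hj, hcon⟩
        have hclosed : ∀ (l : List (ℕ × ℕ)), IsTab (K k) l → ∀ c ∈ l, ∀ c', c' ≤ c → c' ∈ l := by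
          intro l
          induction l with
          | nil => intro _ c hc; simp at hc
          | cons d l ih =>
            intro hd c hc c' hc'
            rcases List.mem_cons.1 hc with rfl | hc
            · by_cases he : c' = c
              · rw [he]; exact List.mem_cons_self
              · exact List.mem_cons_of_mem _ (hd.2.2.2 c' hc'
                  (show c'.1 < k from lt_of_le_of_lt hc'.1 hd.2.1) he)
            · exact List.mem_cons_of_mem _ (ih hd.1 c hc c' hc')
        have := hclosed l h _ hin (i, row l i) (Prod.mk_le_mk.2 ⟨hij, le_rfl⟩)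
        have := ((hm _).1 this).2
        simp only at this
        omega
      apply (hm c').2
      refine ⟨by omega, ?_⟩
      by_cases he : c'.1 = c.1
      · have : c'.2 ≠ c.2 := fun h => hne (Prod.ext he h)
        rw [he]; omega
      · have h5 := hmono c'.1 (c.1 - 1) (by omega) (by omega)
        rcases h3 with h3 | h3
        · omega
        · omega

/-- children of a shape given by its row lengths -/
def ch (k : ℕ) (r : ℕ → ℕ) : Set (ℕ → ℕ) :=
  {r' | ∃ i, i < k ∧ (i = 0 ∨ r i < r (i - 1)) ∧ r' = update r i (r i + 1)}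

theorem row_cons_eq (c : ℕ × ℕ) (l : List (ℕ × ℕ)) :
    row (c :: l) = update (row l) c.1 (row l c.1 + 1) := by
  funext i
  rw [row_cons, update_apply]
  by_cases h : c.1 = i
  · subst h; simp
  · rw [if_neg h, if_neg (fun h' => h h'.symm), add_zero]

/-- valid row-length functions -/
structure Valid (k : ℕ) (r : ℕ → ℕ) : Prop where
  mono : ∀ i, i + 1 < k → r (i + 1) ≤ r i
  zero : ∀ i, k ≤ i → r i = 0

/-- the size -/
def sz (k : ℕ) (r : ℕ → ℕ) : ℕ := ∑ i ∈ Finset.range k, r i

/-- the defect -/
def D (k : ℕ) (r : ℕ → ℕ) : ℕ := k * r 0 - sz k r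

theorem Valid.le {k : ℕ} {r : ℕ → ℕ} (h : Valid k r) {i j : ℕ} (hij : i ≤ j) (hj : j < k) :
    r j ≤ r i := by
  induction j, hij using Nat.le_induction with
  | base => exact le_rfl
  | succ n hn ih => exact (h.mono n hj).trans (ih (by omega))

theorem Valid.child {k : ℕ} {r r' : ℕ → ℕ} (h : Valid k r) (hr : r' ∈ ch k r) : Valid k r' := by
  obtain ⟨i, hi, h1, rfl⟩ := hr
  constructor
  · intro j hj
    rw [update_apply, update_apply]
    have := h.mono j hj
    by_cases ha : j + 1 = i
    · subst ha
      rw [if_pos rfl, if_neg (by omega)]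
      rcases h1 with h1 | h1
      · omega
      · simp only [Nat.add_sub_cancel] at h1; omega
    · rw [if_neg ha]
      by_cases hb : j = i
      · subst hb; rw [if_pos rfl]; omega
      · rw [if_neg hb]; exact this
  · intro j hj
    rw [update_apply, if_neg (by omega)]
    exact h.zero j hj

theorem sz_update {k i : ℕ} (hi : i < k) (r : ℕ → ℕ) : sz k (update r i (r i + 1)) = sz k r + 1 := by
  unfold sz
  rw [Finset.sum_update_of_mem (Finset.mem_range.2 hi), Finset.sdiff_singleton_eq_erase,
    ← Finset.add_sum_erase _ _ (Finset.mem_range.2 hi)]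
  ring

theorem sz_le {k : ℕ} {r : ℕ → ℕ} (h : Valid k r) : sz k r ≤ k * r 0 := by
  unfold sz
  calc ∑ i ∈ Finset.range k, r i ≤ ∑ _i ∈ Finset.range k, r 0 := by
        apply Finset.sum_le_sum
        intro i hi
        exact h.le (Nat.zero_le _) (Finset.mem_range.1 hi)
    _ = k * r 0 := by simp

/-- change of the defect for a child -/
theorem D_up {k : ℕ} (hk : 0 < k) {r : ℕ → ℕ} (h : Valid k r) :
    D k (update r 0 (r 0 + 1)) = D k r + (k - 1) := by
  unfold D
  rw [sz_update hk]
  have := sz_le h
  simp only [update_self]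
  have e : k * (r 0 + 1) = k * r 0 + k := by ring
  omega

theorem D_down {k i : ℕ} (hi : i < k) (hi0 : i ≠ 0) {r : ℕ → ℕ} (h : Valid k r)
    (hlt : r i < r (i - 1)) : D k (update r i (r i + 1)) + 1 = D k r := by
  unfold D
  rw [sz_update hi, update_of_ne (fun h => hi0 h.symm)]
  have hv : Valid k (update r i (r i + 1)) := h.child ⟨i, hi, Or.inr hlt, rfl⟩
  have h1 := sz_le hv
  rw [sz_update hi, update_of_ne (fun h => hi0 h.symm)] at h1
  omega

theorem D_eq_zero_iff {k : ℕ} {r : ℕ → ℕ} (h : Valid k r) :
    D k r = 0 ↔ ∀ i < k, r i = r 0 := by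
  constructor
  · intro h0 i hi
    unfold D at h0
    have h1 := sz_le h
    have h2 : sz k r = k * r 0 := by omega
    by_contra hne
    have hle : ∀ j ∈ Finset.range k, r j ≤ r 0 := fun j hj =>
      h.le (Nat.zero_le _) (Finset.mem_range.1 hj)
    have h3 : sz k r < ∑ _j ∈ Finset.range k, r 0 := by
      unfold sz
      exact Finset.sum_lt_sum hle ⟨i, Finset.mem_range.2 hi, lt_of_le_of_ne
        (hle i (Finset.mem_range.2 hi)) hne⟩
    simp only [Finset.sum_const, Finset.card_range, smul_eq_mul] at h3
    omega
  · intro h0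
    unfold D sz
    have : ∑ i ∈ Finset.range k, r i = ∑ _i ∈ Finset.range k, r 0 :=
      Finset.sum_congr rfl (fun i hi => h0 i (Finset.mem_range.1 hi))
    rw [this]
    simp

/-- a valid shape which is not a full rectangle has a child in a row other than the first -/
theorem exists_down {k : ℕ} {r : ℕ → ℕ} (h : Valid k r) (hD : D k r ≠ 0) :
    ∃ i, i < k ∧ i ≠ 0 ∧ r i < r (i - 1) := by
  by_contra hcon
  push Not at hcon
  apply hD
  rw [D_eq_zero_iff h]
  intro i hi
  induction i with
  | zero => rfl
  | succ i ih =>
    have h1 := hcon (i + 1) hi (by omega)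
    simp only [Nat.add_sub_cancel] at h1
    have h2 := h.mono i hi
    have h3 := ih (by omega)
    omega

theorem update_inj {r : ℕ → ℕ} {i j : ℕ} (h : update r i (r i + 1) = update r j (r j + 1)) :
    i = j := by
  by_contra hne
  have := congrFun h i
  rw [update_self, update_of_ne hne] at this
  omega

/-- the first-row child -/
def up (r : ℕ → ℕ) : ℕ → ℕ := update r 0 (r 0 + 1)

theorem up_mem {k : ℕ} (hk : 0 < k) (r : ℕ → ℕ) : up r ∈ ch k r := ⟨0, hk, Or.inl rfl, rfl⟩

theorem D_le {k : ℕ} (hk : 0 < k) : ∀ (n : ℕ) (x y : ℕ → ℕ), Valid k x → Valid k y →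
    D k x = n → Bis (ch k) x y → D k y ≤ n := by
  intro n
  induction n with
  | zero =>
    intro x y hx hy hD hB
    by_contra hcon
    obtain ⟨i, hi, hi0, hlt⟩ := exists_down hy (by omega)
    obtain ⟨σ, _⟩ := hB.step
    have hsub : ∀ a b : ch k x, a = b := by
      rintro ⟨a, ia, hia, ha, rfl⟩ ⟨b, ib, hib, hb, rfl⟩
      have hxc := (D_eq_zero_iff hx).1 hD
      have ha0 : ia = 0 := by
        rcases ha with ha | ha
        · exact ha
        · rw [hxc ia hia, hxc (ia - 1) (by omega)] at ha
          omega
      have hb0 : ib = 0 := by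
        rcases hb with hb | hb
        · exact hb
        · rw [hxc ib hib, hxc (ib - 1) (by omega)] at hb
          omega
      subst ha0; subst hb0; rfl
    have h1 : (⟨up y, up_mem hk y⟩ : ch k y) = ⟨update y i (y i + 1), i, hi, Or.inr hlt, rfl⟩ := by
      rw [← σ.apply_symm_apply ⟨up y, up_mem hk y⟩,
        ← σ.apply_symm_apply ⟨update y i (y i + 1), i, hi, Or.inr hlt, rfl⟩]
      rw [hsub (σ.symm ⟨up y, up_mem hk y⟩) (σ.symm ⟨update y i (y i + 1), i, hi, Or.inr hlt, rfl⟩)]
    have h2 := update_inj (congrArg Subtype.val h1)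
    omega
  | succ n ih =>
    intro x y hx hy hD hB
    obtain ⟨i, hi, hi0, hlt⟩ := exists_down hx (by omega)
    have hc := D_down hi hi0 hx hlt
    obtain ⟨σ, hσ⟩ := hB.step
    have hx' : Valid k (update x i (x i + 1)) := hx.child ⟨i, hi, Or.inr hlt, rfl⟩
    set c : ch k x := ⟨update x i (x i + 1), i, hi, Or.inr hlt, rfl⟩ with hcdef
    have hy' : Valid k (σ c) := hy.child (σ c).2
    have h1 := ih _ _ hx' hy' (by omega) (hσ c)
    obtain ⟨j, hj, hjj, he⟩ := (σ c).2
    have h2 : D k y ≤ D k (σ c : ℕ → ℕ) + 1 := by
      rw [he]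
      by_cases hj0 : j = 0
      · subst hj0
        rw [D_up hk hy]; omega
      · have := D_down hj hj0 hy (hjj.resolve_left hj0)
        omega
    omega

theorem D_eq {k : ℕ} (hk : 0 < k) {x y : ℕ → ℕ} (hx : Valid k x) (hy : Valid k y)
    (hB : Bis (ch k) x y) : D k x = D k y :=
  le_antisymm (D_le hk _ y x hy hx rfl hB.symm) (D_le hk _ x y hx hy rfl hB)

/-- a bisimulation matches first-row children with first-row children and other children with
other children -/
theorem match_up {k : ℕ} (hk : 2 ≤ k) {x y : ℕ → ℕ} (hx : Valid k x) (hy : Valid k y)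
    (hB : Bis (ch k) x y) (σ : ch k x ≃ ch k y) (hσ : ∀ c : ch k x, Bis (ch k) c (σ c))
    (c : ch k x) : (c : ℕ → ℕ) = up x ↔ (σ c : ℕ → ℕ) = up y := by
  have hk0 : 0 < k := by omega
  have hD := D_eq hk0 hx hy hB
  have h1 := D_eq hk0 (hx.child c.2) (hy.child (σ c).2) (hσ c)
  have key : ∀ {z : ℕ → ℕ} (_ : Valid k z) (w : ℕ → ℕ), w ∈ ch k z →
      (w = up z ↔ D k w = D k z + (k - 1)) := by
    rintro z hz w ⟨i, hi, hii, rfl⟩
    constructor
    · intro h
      rw [h]; exact D_up hk0 hz
    · intro h
      by_cases hi0 : i = 0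
      · subst hi0; rfl
      · have := D_down hi hi0 hz (hii.resolve_left hi0)
        omega
  rw [key hx c c.2, key hy (σ c) (σ c).2, h1, hD]

/-- the exceptional shapes `A_t` -/
def A (k q t : ℕ) (i : ℕ) : ℕ :=
  if i < t then q + 3 else if i + 1 < k then q + 2 else if i + 1 = k then q else 0

/-- the exceptional shapes `B_t` -/
def B (k q t : ℕ) (i : ℕ) : ℕ :=
  if i < t then q + 3 else if i + 2 < k then q + 2 else if i < k then q + 1 else 0

theorem A_valid {k q t : ℕ} (ht : t + 2 ≤ k) : Valid k (A k q t) := by
  constructor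
  · intro i hi
    unfold A
    split_ifs <;> omega
  · intro i hi
    unfold A
    split_ifs <;> omega

theorem B_valid {k q t : ℕ} (ht : t + 2 ≤ k) : Valid k (B k q t) := by
  constructor
  · intro i hi
    unfold B
    split_ifs <;> omega
  · intro i hi
    unfold B
    split_ifs <;> omega

theorem no_bis (k q : ℕ) (hk : 3 ≤ k) : ∀ (m t : ℕ), 1 ≤ t → t + 2 + m = k →
    ¬ Bis (ch k) (A k q t) (B k q t) := by
  intro m
  induction m with
  | zero =>
    intro t ht1 ht2 hB
    obtain ⟨σ, hσ⟩ := hB.step
    -- three children against two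
    have m0 : up (A k q t) ∈ ch k (A k q t) := up_mem (by omega) _
    have m1 : update (A k q t) t (A k q t t + 1) ∈ ch k (A k q t) := by
      refine ⟨t, by omega, Or.inr ?_, rfl⟩
      unfold A
      split_ifs <;> omega
    have m2 : update (A k q t) (t + 1) (A k q t (t + 1) + 1) ∈ ch k (A k q t) := by
      refine ⟨t + 1, by omega, Or.inr ?_, rfl⟩
      unfold A
      split_ifs <;> omega
    have hBch : ∀ w ∈ ch k (B k q t), w = up (B k q t) ∨
        w = update (B k q t) t (B k q t t + 1) := by
      rintro w ⟨i, hi, hii, rfl⟩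
      by_cases hi0 : i = 0
      · left; subst hi0; rfl
      · right
        have h1 := hii.resolve_left hi0
        have : i = t := by
          unfold B at h1
          split_ifs at h1 <;> omega
        rw [this]
    have d01 : (⟨_, m0⟩ : ch k (A k q t)) ≠ ⟨_, m1⟩ := by
      intro h
      have := update_inj (congrArg Subtype.val h)
      omega
    have d02 : (⟨_, m0⟩ : ch k (A k q t)) ≠ ⟨_, m2⟩ := by
      intro h
      have := update_inj (congrArg Subtype.val h)
      omega
    have d12 : (⟨_, m1⟩ : ch k (A k q t)) ≠ ⟨_, m2⟩ := by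
      intro h
      have := update_inj (congrArg Subtype.val h)
      omega
    have e01 := fun h => d01 (σ.injective h)
    have e02 := fun h => d02 (σ.injective h)
    have e12 := fun h => d12 (σ.injective h)
    have f0 := hBch _ (σ ⟨_, m0⟩).2
    have f1 := hBch _ (σ ⟨_, m1⟩).2
    have f2 := hBch _ (σ ⟨_, m2⟩).2
    rcases f0 with f0 | f0 <;> rcases f1 with f1 | f1 <;> rcases f2 with f2 | f2 <;>
    first
    | exact e01 (Subtype.ext (f0.trans f1.symm))
    | exact e02 (Subtype.ext (f0.trans f2.symm))
    | exact e12 (Subtype.ext (f1.trans f2.symm))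
  | succ m ih =>
    intro t ht1 ht2 hB
    have hAv : Valid k (A k q t) := A_valid (by omega)
    have hBv : Valid k (B k q t) := B_valid (by omega)
    obtain ⟨σ, hσ⟩ := hB.step
    -- children of A
    have eA1 : update (A k q t) t (A k q t t + 1) = A k q (t + 1) := by
      funext i
      rw [update_apply]
      unfold A
      split_ifs <;> omega
    have mA1 : A k q (t + 1) ∈ ch k (A k q t) := by
      rw [← eA1]
      refine ⟨t, by omega, Or.inr ?_, rfl⟩
      unfold A
      split_ifs <;> omega
    have mA2 : update (A k q t) (k - 1) (A k q t (k - 1) + 1) ∈ ch k (A k q t) := by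
      refine ⟨k - 1, by omega, Or.inr ?_, rfl⟩
      unfold A
      split_ifs <;> omega
    have eC : update (A k q t) (k - 1) (A k q t (k - 1) + 1) =
        update (B k q t) (k - 2) (B k q t (k - 2) + 1) := by
      funext i
      rw [update_apply, update_apply]
      unfold A B
      split_ifs <;> omega
    have eB1 : update (B k q t) t (B k q t t + 1) = B k q (t + 1) := by
      funext i
      rw [update_apply]
      unfold B
      split_ifs <;> omega
    have hBch : ∀ w ∈ ch k (B k q t), w = up (B k q t) ∨ w = B k q (t + 1) ∨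
        w = update (A k q t) (k - 1) (A k q t (k - 1) + 1) := by
      rintro w ⟨i, hi, hii, rfl⟩
      by_cases hi0 : i = 0
      · left; subst hi0; rfl
      · right
        have h1 := hii.resolve_left hi0
        have : i = t ∨ i = k - 2 := by
          unfold B at h1
          split_ifs at h1 <;> omega
        rcases this with rfl | rfl
        · left; exact eB1
        · right; exact eC.symm
    have nup1 : A k q (t + 1) ≠ up (A k q t) := by
      rw [← eA1]
      intro h
      have := update_inj h
      omega
    have nup2 : update (A k q t) (k - 1) (A k q t (k - 1) + 1) ≠ up (A k q t) := by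
      intro h
      have := update_inj h
      omega
    have n12 : A k q (t + 1) ≠ update (A k q t) (k - 1) (A k q t (k - 1) + 1) := by
      rw [← eA1]
      intro h
      have := update_inj h
      omega
    have u1 := (match_up (by omega) hAv hBv hB σ hσ ⟨_, mA1⟩).not.1 nup1
    have u2 := (match_up (by omega) hAv hBv hB σ hσ ⟨_, mA2⟩).not.1 nup2
    have b1 := hσ ⟨_, mA1⟩
    have b2 := hσ ⟨_, mA2⟩
    rcases (hBch _ (σ ⟨_, mA1⟩).2).resolve_left u1 with h1 | h1
    · rw [h1] at b1
      exact ih (t + 1) (by omega) (by omega) b1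
    · rcases (hBch _ (σ ⟨_, mA2⟩).2).resolve_left u2 with h2 | h2
      · rw [h1] at b1
        rw [h2] at b2
        exact ih (t + 1) (by omega) (by omega) (b1.trans b2)
      · have : σ ⟨_, mA1⟩ = σ ⟨_, mA2⟩ := Subtype.ext (h1.trans h2.symm)
        exact n12 (congrArg Subtype.val (σ.injective this))

/-- the exceptional configuration is impossible -/
theorem exceptional {k : ℕ} (hk : 3 ≤ k) {x y : ℕ → ℕ} (hx : Valid k x) (hy : Valid k y)
    (hB : Bis (ch k) x y) (q : ℕ)
    (h1 : ∀ i < k, x i = if i < k - 2 then q + 2 else q + 1)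
    (h2 : ∀ i < k, y i = if i < k - 1 then q + 2 else q) : False := by
  obtain ⟨σ, hσ⟩ := hB.step
  have hu := (match_up (by omega) hx hy hB σ hσ ⟨up x, up_mem (by omega) x⟩).1 rfl
  have b := hσ ⟨up x, up_mem (by omega) x⟩
  rw [hu] at b
  have e1 : up x = B k q 1 := by
    funext i
    unfold up B
    rw [update_apply]
    rcases Nat.lt_or_ge i k with hi | hi
    · rw [h1 i hi, h1 0 (by omega)]
      split_ifs <;> omega
    · rw [hx.zero i hi]
      split_ifs <;> omega
  have e2 : up y = A k q 1 := by
    funext i
    unfold up A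
    rw [update_apply]
    rcases Nat.lt_or_ge i k with hi | hi
    · rw [h2 i hi, h2 0 (by omega)]
      split_ifs <;> omega
    · rw [hy.zero i hi]
      split_ifs <;> omega
  have b' : Bis (ch k) (up x) (up y) := b
  rw [e1, e2] at b'
  exact no_bis k q hk (k - 3) 1 le_rfl (by omega) b'.symm

theorem const_between {k : ℕ} {x : ℕ → ℕ} (hx : Valid k x) {i : ℕ}
    (huniq : ∀ j, j < k → j ≠ 0 → x j < x (j - 1) → j = i) :
    ∀ a b, a ≤ b → b < k → (b < i ∨ i ≤ a) → x b = x a := by
  intro a b hab
  induction b, hab using Nat.le_induction with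
  | base => intro _ _; rfl
  | succ n hn ih =>
    intro hk h
    have h1 := ih (by omega) (by omega)
    have h2 := hx.mono n hk
    by_contra hne
    have := huniq (n + 1) hk (by omega) (by simp only [Nat.add_sub_cancel]; omega)
    omega

theorem main {k : ℕ} (hk : 2 ≤ k) : ∀ (n : ℕ) (x y : ℕ → ℕ), Valid k x → Valid k y →
    sz k x = sz k y → Bis (ch k) x y → D k x = n → x = y := by
  intro n
  induction n with
  | zero =>
    intro x y hx hy hs hB hD
    have hDy : D k y = 0 := by rw [← D_eq (by omega) hx hy hB, hD]
    have hx0 := (D_eq_zero_iff hx).1 hD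
    have hy0 := (D_eq_zero_iff hy).1 hDy
    have h0 : x 0 = y 0 := by
      have a1 := sz_le hx
      have a2 := sz_le hy
      unfold D at hD hDy
      have : k * x 0 = k * y 0 := by omega
      exact Nat.eq_of_mul_eq_mul_left (by omega) this
    funext i
    rcases Nat.lt_or_ge i k with hi | hi
    · rw [hx0 i hi, hy0 i hi, h0]
    · rw [hx.zero i hi, hy.zero i hi]
  | succ n ih =>
    intro x y hx hy hs hB hD
    have hDy : D k y = n + 1 := by rw [← D_eq (by omega) hx hy hB, hD]
    have h0 : x 0 = y 0 := by
      have a1 := sz_le hx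
      have a2 := sz_le hy
      unfold D at hD hDy
      have : k * x 0 = k * y 0 := by omega
      exact Nat.eq_of_mul_eq_mul_left (by omega) this
    obtain ⟨σ, hσ⟩ := hB.step
    -- every down child of `x` is a down child of `y`
    have key : ∀ {x y : ℕ → ℕ}, Valid k x → Valid k y → sz k x = sz k y → Bis (ch k) x y →
        D k x = n + 1 → ∀ (σ : ch k x ≃ ch k y), (∀ c : ch k x, Bis (ch k) c (σ c)) →
        ∀ i, i < k → i ≠ 0 → x i < x (i - 1) →
        ∃ j, j < k ∧ j ≠ 0 ∧ y j < y (j - 1) ∧
          update x i (x i + 1) = update y j (y j + 1) := by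
      intro x y hx hy hs hB hD σ hσ i hi hi0 hlt
      have hm : update x i (x i + 1) ∈ ch k x := ⟨i, hi, Or.inr hlt, rfl⟩
      have hDc := D_down hi hi0 hx hlt
      have hnup : update x i (x i + 1) ≠ up x := by
        intro h
        exact hi0 (update_inj h)
      have hnup2 := (match_up hk hx hy hB σ hσ ⟨_, hm⟩).not.1 hnup
      obtain ⟨j, hj, hjj, he⟩ := (σ ⟨_, hm⟩).2
      have hj0 : j ≠ 0 := by
        rintro rfl
        exact hnup2 he
      have hlt2 := hjj.resolve_left hj0
      refine ⟨j, hj, hj0, hlt2, ?_⟩
      have hb := hσ ⟨_, hm⟩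
      rw [he] at hb
      apply ih _ _ (hx.child hm) (hy.child ⟨j, hj, hjj, rfl⟩) _ hb (by omega)
      rw [sz_update hi, sz_update hj, hs]
    obtain ⟨i, hi, hi0, hlt⟩ := exists_down hx (by omega)
    obtain ⟨i', hi', hi0', hlt', heq⟩ := key hx hy hs hB hD σ hσ i hi hi0 hlt
    by_cases hii : i = i'
    · subst hii
      funext a
      have := congrFun heq a
      rw [update_apply, update_apply] at this
      split_ifs at this with h
      · subst h; omega
      · exact this
    · exfalso
      have hsymm : ∀ c : ch k y, Bis (ch k) c (σ.symm c) := by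
        intro c
        have := hσ (σ.symm c)
        rw [σ.apply_symm_apply] at this
        exact this.symm
      -- pointwise relations
      have pw : ∀ a, (if a = i then x a + 1 else x a) = (if a = i' then y a + 1 else y a) := by
        intro a
        have := congrFun heq a
        rw [update_apply, update_apply] at this
        split_ifs at this ⊢ with h1 h2 h2 <;> subst_vars <;> omega
      have hux : ∀ j, j < k → j ≠ 0 → x j < x (j - 1) → j = i := by
        intro j hj hj0 hjlt
        obtain ⟨j', hj', _, _, hje⟩ := key hx hy hs hB hD σ hσ j hj hj0 hjlt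
        by_contra hne
        have a1 := pw i
        rw [if_pos rfl, if_neg hii] at a1
        have a2 := congrFun hje i
        rw [update_of_ne (fun h => hne h.symm), update_apply] at a2
        split_ifs at a2 with h
        · subst h; omega
        · omega
      have huy : ∀ j, j < k → j ≠ 0 → y j < y (j - 1) → j = i' := by
        intro j hj hj0 hjlt
        obtain ⟨j', hj', _, _, hje⟩ := key hy hx hs.symm hB.symm hDy σ.symm hsymm j hj hj0 hjlt
        by_contra hne
        have a1 := pw i'
        rw [if_neg (fun h => hii h.symm), if_pos rfl] at a1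
        have a2 := congrFun hje i'
        rw [update_of_ne (fun h => hne h.symm), update_apply] at a2
        split_ifs at a2 with h
        · subst h; omega
        · omega
      have cx := const_between hx hux
      have cy := const_between hy huy
      have last : ∀ {x y : ℕ → ℕ} {i i' : ℕ}, Valid k x → Valid k y → Bis (ch k) x y →
          x 0 = y 0 → i < k → i' < k → i ≠ 0 → i' ≠ 0 → i < i' →
          (∀ a, (if a = i then x a + 1 else x a) = (if a = i' then y a + 1 else y a)) →
          (∀ a b, a ≤ b → b < k → (b < i ∨ i ≤ a) → x b = x a) →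
          (∀ a b, a ≤ b → b < k → (b < i' ∨ i' ≤ a) → y b = y a) → False := by
        intro x y i i' hx hy hB h0 hi hi' hi0 hi0' hlt pw cx cy
        have x1 : x (i - 1) = x 0 := cx 0 (i - 1) (by omega) (by omega) (by omega)
        have y1 : y i = y 0 := cy 0 i (by omega) (by omega) (by omega)
        have p1 := pw i
        rw [if_pos rfl, if_neg (by omega)] at p1
        have x2 : x i' = x i := cx i i' (by omega) (by omega) (by omega)
        have p2 := pw i'
        rw [if_neg (by omega), if_pos rfl] at p2
        have e1 : i' = k - 1 := by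
          by_contra hne
          have p3 := pw (i' + 1)
          rw [if_neg (by omega), if_neg (by omega)] at p3
          have x3 : x (i' + 1) = x i := cx i (i' + 1) (by omega) (by omega) (by omega)
          have y3 : y (i' + 1) = y i' := cy i' (i' + 1) (by omega) (by omega) (by omega)
          omega
        have e2 : i = k - 2 := by
          by_contra hne
          have p3 := pw (i + 1)
          rw [if_neg (by omega), if_neg (by omega)] at p3
          have x3 : x (i + 1) = x i := cx i (i + 1) (by omega) (by omega) (by omega)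
          have y3 : y (i + 1) = y 0 := cy 0 (i + 1) (by omega) (by omega) (by omega)
          omega
        have hk3 : 3 ≤ k := by omega
        refine exceptional hk3 hx hy hB (y i') ?_ ?_
        · intro a ha
          split_ifs with h
          · rw [cx 0 a (by omega) ha (by omega)]; omega
          · rw [cx i a (by omega) ha (by omega)]; omega
        · intro a ha
          split_ifs with h
          · rw [cy 0 a (by omega) ha (by omega)]; omega
          · have : a = i' := by omega
            rw [this]
      rcases Nat.lt_or_gt_of_ne hii with hlt3 | hlt3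
      · exact last hx hy hB h0 hi hi' hi0 hi0' hlt3 pw cx cy
      · exact last hy hx hB.symm h0.symm hi' hi hi0' hi0 hlt3 (fun a => (pw a).symm) cy cx

theorem row_valid (k : ℕ) (l : List (ℕ × ℕ)) (h : IsTab (K k) l) : Valid k (row l) := by
  induction l with
  | nil => exact ⟨fun i _ => by simp [row], fun i _ => by simp [row]⟩
  | cons c l ih =>
    have h1 := (addable_iff k l h.1 c).1 h
    rw [row_cons_eq]
    exact (ih h.1).child ⟨c.1, h1.1, h1.2.2, rfl⟩

theorem sz_row (k : ℕ) (l : List (ℕ × ℕ)) (h : IsTab (K k) l) : sz k (row l) = l.length := by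
  induction l with
  | nil => simp [sz, row]
  | cons c l ih =>
    have h1 := (addable_iff k l h.1 c).1 h
    rw [row_cons_eq, sz_update h1.1, ih h.1, List.length_cons]

/-- **Main theorem.** For every `k ≥ 1` the identity is the only automorphism of the (unlabelled)
tree of standard Young tableaux with at most `k` rows. -/
theorem result (k : ℕ) (hk : 1 ≤ k)
    (φ : tabTree (fun c => c.1 < k) ≃g tabTree (fun c => c.1 < k)) : φ = RelIso.refl _ := by
  apply rigid (ch k) row
  · intro c c' h h'
    have h1 := (addable_iff k [] trivial c).1 h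
    have h2 := (addable_iff k [] trivial c').1 h'
    simp only [row, List.countP_nil, Nat.lt_irrefl, or_false] at h1 h2
    exact Prod.ext (by omega) (by omega)
  · intro c l h
    exact ⟨(0, row (c :: l) 0), (addable_iff k _ h _).2 ⟨hk, rfl, Or.inl rfl⟩⟩
  · intro l h c hc
    have h1 := (addable_iff k l h c).1 hc
    rw [row_cons_eq]
    exact ⟨c.1, h1.1, h1.2.2, rfl⟩
  · intro l c c' h h' he
    have h1 := (addable_iff k l h.1 c).1 h
    have h2 := (addable_iff k l h.1 c').1 h'
    rw [row_cons_eq, row_cons_eq] at he
    have := update_inj he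
    apply Prod.ext this
    rw [h1.2.1, h2.2.1, this]
  · rintro l h p ⟨i, hi, hii, rfl⟩
    exact ⟨(i, row l i), (addable_iff k l h _).2 ⟨hi, rfl, hii⟩, row_cons_eq _ _⟩
  · intro l l' h h' hlen hB
    rcases Nat.lt_or_ge 1 k with hk2 | hk2
    · exact main hk2 _ _ _ (row_valid k l h) (row_valid k l' h')
        (by rw [sz_row k l h, sz_row k l' h', hlen]) hB rfl
    · have hk1 : k = 1 := by omega
      subst hk1
      have v1 := row_valid 1 l h
      have v2 := row_valid 1 l' h'
      have s1 := sz_row 1 l h
      have s2 := sz_row 1 l' h'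
      simp only [sz, Finset.range_one, Finset.sum_singleton] at s1 s2
      funext i
      rcases Nat.eq_zero_or_pos i with rfl | hi
      · omega
      · rw [v1.zero i hi, v2.zero i hi]

end Pool.Agent.Results.MP_291af2_co.TrivialAut
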